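import Pool.Agent.V5helper30.W3.Stm

/-!
# Project W3: PT
-/

set_option autoImplicit false

open MvPolynomial

namespace Pool.Agent.V5helper26.W3

open Pool.Agent.Helper720.Pow Pool.Agent.V5helper30.W3

variable {K : Type*} [Field K]

/-- the ideal of the squares -/
noncomputable def sq (K : Type*) [Field K] : Ideal (MvPolynomial (Fin 3) K) :=
  Ideal.span (Set.range fun j : Fin 3 => (X j : MvPolynomial (Fin 3) K) ^ 2)

lemma sq_mem (j : Fin 3) : (X j : MvPolynomial (Fin 3) K) ^ 2 ∈ sq K := Ideal.subset_span ⟨j, rfl⟩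

lemma pow_eq (k : ℕ) : powIdeal K 3 2 k = sq K ^ k := rfl

lemma el3 : el K 3 = X 0 + X 1 + X 2 := by
  unfold el
  rw [Fin.sum_univ_three]

/-- the off-diagonal products -/
lemma off [CharZero K] {i j t : Fin 3} (h : el K 3 = X i + X j + X t) :
    ∃ l : MvPolynomial (Fin 3) K, l.IsHomogeneous 1 ∧ X i * X j - el K 3 * l ∈ sq K := by
  refine ⟨C (1 / 2 : K) * (X i + X j - X t), ?_, ?_⟩
  · have h1 : (X i + X j - X t : MvPolynomial (Fin 3) K).IsHomogeneous 1 :=
      ((isHomogeneous_X K i).add (isHomogeneous_X K j)).sub (isHomogeneous_X K t)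
    have := (isHomogeneous_C (Fin 3) (1 / 2 : K)).mul h1
    rwa [zero_add] at this
  · have h2 : (C (1 / 2 : K) : MvPolynomial (Fin 3) K) * 2 = 1 := by
      have : (2 : MvPolynomial (Fin 3) K) = C (2 : K) := (map_ofNat (C : K →+* MvPolynomial (Fin 3) K) 2).symm
      rw [this, ← C_mul]
      norm_num
    have h3 : X i * X j - el K 3 * (C (1 / 2 : K) * (X i + X j - X t)) =
        C (1 / 2 : K) * (X t ^ 2 - X i ^ 2 - X j ^ 2) := by
      rw [h]
      linear_combination (-(X i * X j) : MvPolynomial (Fin 3) K) * h2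
    rw [h3]
    exact Ideal.mul_mem_left _ _ ((sq K).sub_mem ((sq K).sub_mem (sq_mem t) (sq_mem i)) (sq_mem j))

lemma two [CharZero K] (i j : Fin 3) :
    ∃ l : MvPolynomial (Fin 3) K, l.IsHomogeneous 1 ∧ X i * X j - el K 3 * l ∈ sq K := by
  have hd : ∀ i : Fin 3, ∃ l : MvPolynomial (Fin 3) K, l.IsHomogeneous 1 ∧
      X i * X i - el K 3 * l ∈ sq K := fun i =>
    ⟨0, isHomogeneous_zero _ _ _, by
      rw [mul_zero, sub_zero, ← pow_two]
      exact sq_mem i⟩
  fin_cases i <;> fin_cases j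
  · exact hd 0
  · exact off (i := 0) (j := 1) (t := 2) el3
  · exact off (i := 0) (j := 2) (t := 1) (by rw [el3]; ring)
  · exact off (i := 1) (j := 0) (t := 2) (by rw [el3]; ring)
  · exact hd 1
  · exact off (i := 1) (j := 2) (t := 0) (by rw [el3]; ring)
  · exact off (i := 2) (j := 0) (t := 1) (by rw [el3]; ring)
  · exact off (i := 2) (j := 1) (t := 0) (by rw [el3]; ring)
  · exact hd 2

lemma split {n : ℕ} {w : Fin 3 →₀ ℕ} (hw : w.degree = n + 1) :
    ∃ (i : Fin 3) (v : Fin 3 →₀ ℕ), v.degree = n ∧ w = Finsupp.single i 1 + v := by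
  obtain ⟨i, hi⟩ : ∃ i, w i ≠ 0 := by
    by_contra h
    push Not at h
    have : w = 0 := Finsupp.ext h
    rw [this] at hw
    simp at hw
  have h1 : Finsupp.single i 1 ≤ w := by
    rw [Finsupp.single_le_iff]
    omega
  refine ⟨i, w - Finsupp.single i 1, ?_, (add_tsub_cancel_of_le h1).symm⟩
  have h2 : w.degree = (Finsupp.single i 1 : Fin 3 →₀ ℕ).degree + (w - Finsupp.single i 1).degree := by
    rw [← map_add, add_tsub_cancel_of_le h1]
  rw [Finsupp.degree_single] at h2
  omega

lemma main [CharZero K] (k : ℕ) : ∀ w : Fin 3 →₀ ℕ, w.degree = 2 * k →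
    ∃ f : MvPolynomial (Fin 3) K, f.IsHomogeneous (2 * k - 1) ∧ (k = 0 → f = 0) ∧
      monomial w 1 - el K 3 * f ∈ sq K ^ k := by
  induction k with
  | zero =>
    intro w _
    refine ⟨0, isHomogeneous_zero _ _ _, fun _ => rfl, ?_⟩
    rw [pow_zero, Ideal.one_eq_top]
    trivial
  | succ k ih =>
    intro w hw
    obtain ⟨i, v, hv, rfl⟩ := split (n := 2 * k + 1) (by omega : w.degree = 2 * k + 1 + 1)
    obtain ⟨j, u, hu, rfl⟩ := split hv
    obtain ⟨f, hf, hf0, hfr⟩ := ih u hu
    obtain ⟨l, hl, hls⟩ := two (K := K) i j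
    have hs2 : (X i * X j - el K 3 * l).IsHomogeneous 2 :=
      ((isHomogeneous_X K i).mul (isHomogeneous_X K j)).sub (el_hom.mul hl)
    have hmon : (monomial (Finsupp.single i 1 + (Finsupp.single j 1 + u)) (1 : K)) =
        X i * X j * monomial u 1 := by
      rw [X, X, mul_assoc, monomial_mul, monomial_mul, one_mul, one_mul]
    refine ⟨l * monomial u 1 + (X i * X j - el K 3 * l) * f, ?_, by omega, ?_⟩
    · refine IsHomogeneous.add ?_ ?_
      · have h1 := hl.mul (isHomogeneous_monomial (1 : K) hu)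
        have h2 : 1 + 2 * k = 2 * (k + 1) - 1 := by omega
        rwa [h2] at h1
      · rcases Nat.eq_zero_or_pos k with h0 | h0
        · rw [hf0 h0, mul_zero]
          exact isHomogeneous_zero _ _ _
        · have h1 := hs2.mul hf
          have h2 : 2 + (2 * k - 1) = 2 * (k + 1) - 1 := by omega
          rwa [h2] at h1
    · have h3 : monomial (Finsupp.single i 1 + (Finsupp.single j 1 + u)) (1 : K) -
          el K 3 * (l * monomial u 1 + (X i * X j - el K 3 * l) * f) =
          (X i * X j - el K 3 * l) * (monomial u 1 - el K 3 * f) := by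
        rw [hmon]; ring
      rw [h3, pow_succ']
      exact Ideal.mul_mem_mul hls hfr

theorem t_PT (K : Type*) [Field K] [CharZero K] : S_PT K := by
  intro k hk
  refine surj_of_monomials (by norm_num) fun w hw _ => ?_
  obtain ⟨f, hf, _, hfr⟩ := main (K := K) k w (by omega)
  exact ⟨f, hf, by rw [pow_one, pow_eq]; exact hfr⟩

end Pool.Agent.V5helper26.W3
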